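import Pool.Agent.Z702.Defs
import Pool.Agent.TH841.LS.Loca0

/-!
# Z702-LP: local points at the split primes which divide `d`

(helper474, for helper700.)
-/

set_option autoImplicit false

namespace Pool.Agent.Y474.Z

open Pool.Agent.Z702 Pool.Agent.Y700

theorem sq_of {p : ℕ} [Fact p.Prime] (h2 : p ≠ 2) {u : ℤ_[p]} (h0 : PadicInt.toZMod u ≠ 0)
    (h : IsSquare (PadicInt.toZMod u)) : IsSquare u :=
  Pool.Agent.TH841.LS.LOCA0.sq_of_char h2 ((quadraticChar_one_iff_isSquare h0).2 h)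

theorem sq_mul {p : ℕ} [Fact p.Prime] {a b : ZMod p} (ha : a ≠ 0) (hb : b ≠ 0)
    (hab : IsSquare a ↔ IsSquare b) : IsSquare (a * b) := by
  by_cases h : IsSquare a
  · exact h.mul (hab.1 h)
  · have h' : ¬ IsSquare b := fun hb => h (hab.2 hb)
    rw [← quadraticChar_one_iff_isSquare (mul_ne_zero ha hb), map_mul,
      quadraticChar_neg_one_iff_not_isSquare.2 h, quadraticChar_neg_one_iff_not_isSquare.2 h']
    norm_num

theorem t_LP : S_LP := by
  intro p hp hp8 h7 m M' d' hm hM hd hiff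
  have h2 : p ≠ 2 := by rintro rfl; omega
  have hsmall : ∀ q : ℕ, q.Prime → q % 8 ≠ 1 → ((q : ℕ) : ZMod p) ≠ 0 := by
    intro q hq hq8 h
    rw [ZMod.natCast_eq_zero_iff] at h
    have := (Nat.prime_dvd_prime_iff_eq hp.out hq).1 h
    subst this
    exact hq8 hp8
  have h20 : (2 : ZMod p) ≠ 0 := by
    have := hsmall 2 Nat.prime_two (by norm_num)
    exact_mod_cast this
  have h70 : (7 : ZMod p) ≠ 0 := by
    have := hsmall 7 (by norm_num) (by norm_num)
    exact_mod_cast this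
  have hm0 : (m : ZMod p) ≠ 0 := by
    intro h
    rw [ZMod.natCast_eq_zero_iff] at h
    exact hm h
  have hM0 : (M' : ZMod p) ≠ 0 := by
    intro h
    rw [ZMod.intCast_zmod_eq_zero_iff_dvd] at h
    exact hM h
  have hd0 : (d' : ZMod p) ≠ 0 := by
    intro h
    rw [ZMod.intCast_zmod_eq_zero_iff_dvd] at h
    exact hd h
  have hneg : IsSquare (-1 : ZMod p) := ZMod.exists_sq_eq_neg_one_iff.2 (by omega)
  have htwo : IsSquare (2 : ZMod p) := (ZMod.exists_sq_eq_two_iff h2).2 (Or.inl hp8)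
  obtain ⟨g, hg⟩ : IsSquare (2 : ℤ_[p]) := by
    apply sq_of h2
    · rw [map_ofNat]; exact h20
    · rw [map_ofNat]; exact htwo
  set gb : ZMod p := PadicInt.toZMod g with hgb
  have hgb2 : gb * gb = 2 := by
    rw [hgb, ← map_mul, ← hg, map_ofNat]
  have hsb : (13 + 16 * gb) * (13 - 16 * gb) = -(7 * 7 * 7) := by
    linear_combination (-256) * hgb2
  have hsb0 : (13 + 16 * gb) ≠ 0 := by
    intro h
    rw [h, zero_mul] at hsb
    exact mul_ne_zero (mul_ne_zero h70 h70) h70 (neg_eq_zero.1 hsb.symm)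
  have key : ∀ x : ZMod p, x ^ 2 + 13 * (m : ZMod p) * x + 128 * (m : ZMod p) ^ 2 = 0 →
      x ≠ 0 ∧ (13 + 16 * gb) * m * x = (-1) * (x - 8 * gb * m) ^ 2 := by
    intro x hx
    refine ⟨?_, by linear_combination hx + 64 * (m : ZMod p) ^ 2 * hgb2⟩
    rintro rfl
    have h1 : (2 : ZMod p) ^ 7 * (m : ZMod p) ^ 2 = 0 := by linear_combination hx
    exact mul_ne_zero (pow_ne_zero _ h20) (pow_ne_zero _ hm0) h1
  have hnR : ¬ Rt p m ↔ IsSquare ((13 + 16 * gb) * (m : ZMod p)) := by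
    constructor
    · intro h
      unfold Rt at h
      push Not at h
      obtain ⟨x, hx, hxs⟩ := h
      obtain ⟨hx0, hk⟩ := key x hx
      have h1 : (13 + 16 * gb) * (m : ZMod p) = (-1) * (x - 8 * gb * m) ^ 2 / x := by
        rw [← hk]; field_simp
      rw [h1]
      exact ((hneg.mul (IsSquare.sq _)).div hxs)
    · intro h hR
      obtain ⟨e, he⟩ := h7
      have hx : ((m : ZMod p) * (-13 + 7 * e) / 2) ^ 2 +
          13 * (m : ZMod p) * ((m : ZMod p) * (-13 + 7 * e) / 2) + 128 * (m : ZMod p) ^ 2 = 0 := by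
        field_simp
        linear_combination (-49 * (m : ZMod p) ^ 2) * he
      obtain ⟨hx0, hk⟩ := key _ hx
      apply hR _ hx
      have h1 : (m : ZMod p) * (-13 + 7 * e) / 2 =
          (-1) * ((m : ZMod p) * (-13 + 7 * e) / 2 - 8 * gb * m) ^ 2 /
            ((13 + 16 * gb) * m) := by
        rw [← hk]
        field_simp
      rw [h1]
      exact ((hneg.mul (IsSquare.sq _)).div h)
  have hsq : IsSquare ((M' : ZMod p) * (d' : ZMod p) * (13 + 16 * gb)) := by
    have h1 : IsSquare (((M' * d' * m : ℤ) : ZMod p) * ((13 + 16 * gb) * (m : ZMod p))) := by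
      apply sq_mul
      · push_cast
        exact mul_ne_zero (mul_ne_zero hM0 hd0) hm0
      · exact mul_ne_zero hsb0 hm0
      · exact hiff.trans hnR
    have h2 : (M' : ZMod p) * (d' : ZMod p) * (13 + 16 * gb) =
        (((M' * d' * m : ℤ) : ZMod p) * ((13 + 16 * gb) * (m : ZMod p))) / (m : ZMod p) ^ 2 := by
      push_cast
      field_simp
    rw [h2]
    exact h1.div (IsSquare.sq _)
  obtain ⟨t, ht⟩ : IsSquare ((M' : ℤ_[p]) * (d' : ℤ_[p]) * (13 + 16 * g)) := by
    have e1 : PadicInt.toZMod ((M' : ℤ_[p]) * (d' : ℤ_[p]) * (13 + 16 * g)) =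
        (M' : ZMod p) * (d' : ZMod p) * (13 + 16 * gb) := by
      rw [map_mul, map_mul, map_intCast, map_intCast, map_add, map_mul, map_ofNat, map_ofNat]
    apply sq_of h2
    · rw [e1]
      exact mul_ne_zero (mul_ne_zero hM0 hd0) hsb0
    · rw [e1]
      exact hsq
  -- over `ℚ_p`
  obtain ⟨G, hG⟩ : ∃ G : ℚ_[p], G = algebraMap ℤ_[p] ℚ_[p] g := ⟨_, rfl⟩
  obtain ⟨T, hT⟩ : ∃ T : ℚ_[p], T = algebraMap ℤ_[p] ℚ_[p] t := ⟨_, rfl⟩
  have hg' : (2 : ℚ_[p]) = G * G := by
    have := congrArg (algebraMap ℤ_[p] ℚ_[p]) hg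
    rwa [map_mul, map_ofNat, ← hG] at this
  have ht' : (M' : ℚ_[p]) * (d' : ℚ_[p]) * (13 + 16 * G) = T * T := by
    have := congrArg (algebraMap ℤ_[p] ℚ_[p]) ht
    rwa [map_mul, map_mul, map_mul, map_add, map_mul, map_intCast, map_intCast, map_ofNat,
      map_ofNat, ← hG, ← hT] at this
  have hp0 : (p : ℚ_[p]) ≠ 0 := by exact_mod_cast hp.out.ne_zero
  have hM0' : (M' : ℚ_[p]) ≠ 0 := by
    have : M' ≠ 0 := by rintro rfl; exact hM (dvd_zero _)
    exact_mod_cast this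
  have hd0' : (d' : ℚ_[p]) ≠ 0 := by
    have : d' ≠ 0 := by rintro rfl; exact hd (dvd_zero _)
    exact_mod_cast this
  have hs0 : (13 + 16 * G) ≠ 0 := by
    intro h
    have h1 : (13 + 16 * G) * (13 - 16 * G) = -343 := by
      linear_combination (256) * hg'
    rw [h, zero_mul] at h1
    have h2 : (343 : ℚ_[p]) = 0 := by linear_combination h1
    exact absurd h2 (by exact_mod_cast (by norm_num : (343 : ℕ) ≠ 0))
  refine ⟨(p : ℚ_[p]) * M' * (13 + 16 * G), 0, T / d', ?_, ?_, ?_⟩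
  · exact mul_ne_zero (mul_ne_zero hp0 hM0') hs0
  · push_cast
    linear_combination (256 * ((p : ℚ_[p]) * M') ^ 3 * (13 + 16 * G)) * hg'
  · push_cast
    field_simp
    linear_combination ht'

end Pool.Agent.Y474.Z
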